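import Pool.Agent.Helper98.EX.Stmts

/-!
# A single particle in a closed window
-/

namespace Pool.Agent.Helper98.EX

open Finset

/-- the window `[A,B)` contains exactly one particle, at `y` -/
def walk_At {N : ℕ} (A B y : ℕ) (η : Cfg N) : Prop :=
  A ≤ y ∧ y < B ∧ ∀ i, A ≤ i → i < B → (occ η i = true ↔ i = y)

/-- one step of the one-particle walk in the window `[A,B)` -/
noncomputable def walk_P (N : ℕ) (r l : ℕ → ℝ) (A B : ℕ) (φ : ℕ → ℝ) (y : ℕ) : ℝ :=
  φ y + ((if y + 1 < B then r (y + 1) * (φ (y + 1) - φ y) else 0) +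
    (if A < y then l y * (φ (y - 1) - φ y) else 0)) / (2 * N)

theorem walk_at_of {N : ℕ} {A B c : ℕ} {η : Cfg N} (h1 : A ≤ c) (h2 : c < B)
    (hc : cnt η A B = 1) (ho : occ η c = true) : walk_At A B c η := by
  refine ⟨h1, h2, ?_⟩
  intro i hi1 hi2
  constructor
  · intro hi
    by_contra hne
    have hsub : ({i, c} : Finset ℕ) ⊆ Finset.Ico A B := by
      intro j hj
      rw [Finset.mem_insert, Finset.mem_singleton] at hj
      rw [Finset.mem_Ico]
      rcases hj with rfl | rfl
      · exact ⟨hi1, hi2⟩
      · exact ⟨h1, h2⟩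
    have := Finset.sum_le_sum_of_subset (f := fun i => if occ η i = true then 1 else 0) hsub
    rw [Finset.sum_pair hne] at this
    simp only [hi, ho, if_true] at this
    unfold cnt at hc
    omega
  · intro hi
    rw [hi]; exact ho

theorem walk_at_congr {N : ℕ} {A B y : ℕ} {η ξ : Cfg N} (h : walk_At A B y η)
    (he : ∀ i, A ≤ i → i < B → occ ξ i = occ η i) : walk_At A B y ξ := by
  refine ⟨h.1, h.2.1, ?_⟩
  intro i h1 h2
  rw [he i h1 h2]
  exact h.2.2 i h1 h2

theorem walk_R {N : ℕ} {A B y x : ℕ} {S : Finset ℕ} {η : Cfg N} (h : walk_At A B y η)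
    (hA : A ∉ S) (hB : B ∉ S) (hS : ∀ x, A < x → x < B → x ∈ S) (hBN : B ≤ N) :
    walk_At A B (if x = y + 1 ∧ y + 1 < B then y + 1 else y) (RmS S x η) := by
  obtain ⟨h1, h2, h3⟩ := h
  by_cases hx : x = y + 1 ∧ y + 1 < B
  · rw [if_pos hx]
    obtain ⟨hx1, hx2⟩ := hx
    subst hx1
    have hmem : y + 1 ∈ S := hS _ (by omega) hx2
    have e1 : occ η y = true := (h3 y h1 h2).2 rfl
    have e2 : occ η (y + 1) = false := by
      by_contra hh
      have hh' : occ η (y + 1) = true := by simpa using hh
      have := (h3 (y + 1) (by omega) hx2).1 hh'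
      omega
    have hR : RmS S (y + 1) η = swp (y + 1) η := by
      unfold RmS Rm
      rw [if_pos hmem, if_pos]
      refine ⟨by omega, by omega, ?_, e2⟩
      simpa using e1
    rw [hR]
    refine ⟨by omega, hx2, ?_⟩
    intro i hi1 hi2
    rw [occ_swp (by omega) (by omega)]
    by_cases hi : i = y + 1
    · rw [if_pos hi]
      simp only [Nat.add_sub_cancel, e1, hi]
    · rw [if_neg hi]
      by_cases hi' : i + 1 = y + 1
      · rw [if_pos hi', e2]
        constructor
        · intro hh; exact absurd hh (by decide)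
        · intro hh; exact absurd hh hi
      · rw [if_neg hi', h3 i hi1 hi2]
        constructor
        · intro hh; omega
        · intro hh; exact absurd hh hi
  · rw [if_neg hx]
    by_cases hmem : x ∈ S
    · unfold RmS
      rw [if_pos hmem]
      unfold Rm
      split_ifs with hc
      · obtain ⟨c1, c2, c3, c4⟩ := hc
        have hxA : x ≠ A := fun hh => hA (hh ▸ hmem)
        have hxB : x ≠ B := fun hh => hB (hh ▸ hmem)
        by_cases hin : A < x ∧ x < B
        · exfalso
          have := (h3 (x - 1) (by omega) (by omega)).1 c3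
          apply hx
          constructor <;> omega
        · apply walk_at_congr ⟨h1, h2, h3⟩
          intro i hi1 hi2
          apply occ_swp_ne c1 c2
          · omega
          · omega
      · exact ⟨h1, h2, h3⟩
    · unfold RmS
      rw [if_neg hmem]
      exact ⟨h1, h2, h3⟩

theorem walk_L {N : ℕ} {A B y x : ℕ} {S : Finset ℕ} {η : Cfg N} (h : walk_At A B y η)
    (hA : A ∉ S) (hB : B ∉ S) (hS : ∀ x, A < x → x < B → x ∈ S) (hBN : B ≤ N) :
    walk_At A B (if x = y ∧ A < y then y - 1 else y) (LmS S x η) := by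
  obtain ⟨h1, h2, h3⟩ := h
  by_cases hx : x = y ∧ A < y
  · rw [if_pos hx]
    obtain ⟨hx1, hx2⟩ := hx
    subst hx1
    have hmem : x ∈ S := hS _ hx2 h2
    have e1 : occ η x = true := (h3 x h1 h2).2 rfl
    have e2 : occ η (x - 1) = false := by
      by_contra hh
      have hh' : occ η (x - 1) = true := by simpa using hh
      have := (h3 (x - 1) (by omega) (by omega)).1 hh'
      omega
    have hL : LmS S x η = swp x η := by
      unfold LmS Lm
      rw [if_pos hmem, if_pos]
      exact ⟨by omega, by omega, e2, e1⟩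
    rw [hL]
    refine ⟨by omega, by omega, ?_⟩
    intro i hi1 hi2
    rw [occ_swp (by omega) (by omega)]
    by_cases hi : i = x
    · rw [if_pos hi, e2]
      constructor
      · intro hh; exact absurd hh (by decide)
      · intro hh; omega
    · rw [if_neg hi]
      by_cases hi' : i + 1 = x
      · rw [if_pos hi', e1]
        constructor
        · intro _; omega
        · intro _; rfl
      · rw [if_neg hi', h3 i hi1 hi2]
        constructor
        · intro hh; exact absurd hh hi
        · intro hh; omega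
  · rw [if_neg hx]
    by_cases hmem : x ∈ S
    · unfold LmS
      rw [if_pos hmem]
      unfold Lm
      split_ifs with hc
      · obtain ⟨c1, c2, c3, c4⟩ := hc
        have hxA : x ≠ A := fun hh => hA (hh ▸ hmem)
        have hxB : x ≠ B := fun hh => hB (hh ▸ hmem)
        by_cases hin : A < x ∧ x < B
        · exfalso
          have := (h3 x (by omega) (by omega)).1 c4
          apply hx
          constructor <;> omega
        · apply walk_at_congr ⟨h1, h2, h3⟩
          intro i hi1 hi2
          apply occ_swp_ne c1 c2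
          · omega
          · omega
      · exact ⟨h1, h2, h3⟩
    · unfold LmS
      rw [if_neg hmem]
      exact ⟨h1, h2, h3⟩

theorem walk_stp {N : ℕ} {r l : ℕ → ℝ} {A B y : ℕ} {S : Finset ℕ} {η : Cfg N}
    {f : Cfg N → ℝ} {φ : ℕ → ℝ} (hf : ∀ (z : ℕ) (ξ : Cfg N), walk_At A B z ξ → f ξ = φ z)
    (h : walk_At A B y η)
    (hA : A ∉ S) (hB : B ∉ S) (hS : ∀ x, A < x → x < B → x ∈ S) (hBN : B ≤ N) :
    stp r l S f η = walk_P N r l A B φ y := by
  have hy := h
  obtain ⟨h1, h2, h3⟩ := h
  unfold stp walk_P
  rw [hf y η hy]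
  congr 2
  rw [Finset.sum_add_distrib]
  congr 1
  · have e : ∀ x ∈ full N, r x * (f (RmS S x η) - φ y) =
        if x = y + 1 then (if y + 1 < B then r (y + 1) * (φ (y + 1) - φ y) else 0) else 0 := by
      intro x _
      rw [hf _ _ (walk_R hy hA hB hS hBN)]
      by_cases hx : x = y + 1
      · by_cases hx2 : y + 1 < B
        · rw [if_pos ⟨hx, hx2⟩, if_pos hx, if_pos hx2, hx]
        · rw [if_neg (fun hh => hx2 hh.2), if_pos hx, if_neg hx2]; ring
      · rw [if_neg (fun hh => hx hh.1), if_neg hx]; ring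
    rw [Finset.sum_congr rfl e, Finset.sum_ite_eq']
    by_cases hx2 : y + 1 < B
    · rw [if_pos]
      unfold full
      rw [Finset.mem_Ico]
      omega
    · rw [if_neg hx2]; simp
  · have e : ∀ x ∈ full N, l x * (f (LmS S x η) - φ y) =
        if x = y then (if A < y then l y * (φ (y - 1) - φ y) else 0) else 0 := by
      intro x _
      rw [hf _ _ (walk_L hy hA hB hS hBN)]
      by_cases hx : x = y
      · by_cases hx2 : A < y
        · rw [if_pos ⟨hx, hx2⟩, if_pos hx, if_pos hx2, hx]
        · rw [if_neg (fun hh => hx2 hh.2), if_pos hx, if_neg hx2]; ring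
      · rw [if_neg (fun hh => hx hh.1), if_neg hx]; ring
    rw [Finset.sum_congr rfl e, Finset.sum_ite_eq']
    by_cases hx2 : A < y
    · rw [if_pos]
      unfold full
      rw [Finset.mem_Ico]
      omega
    · rw [if_neg hx2]; simp

theorem walk_ev {N : ℕ} {r l : ℕ → ℝ} {A B : ℕ} {S : Finset ℕ}
    (hA : A ∉ S) (hB : B ∉ S) (hS : ∀ x, A < x → x < B → x ∈ S) (hBN : B ≤ N)
    {f : Cfg N → ℝ} {φ : ℕ → ℝ} (hf : ∀ (z : ℕ) (ξ : Cfg N), walk_At A B z ξ → f ξ = φ z)
    (m : ℕ) : ∀ (y : ℕ) (η : Cfg N), walk_At A B y η →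
      ev r l (fun _ => S) m f η = ((walk_P N r l A B)^[m] φ) y := by
  induction m with
  | zero => intro y η h; exact hf y η h
  | succ m ih =>
    intro y η h
    rw [Function.iterate_succ_apply']
    exact walk_stp ih h hA hB hS hBN

/-! ### the one-particle walk -/

section onep

variable {N : ℕ} {r l : ℕ → ℝ} {A B : ℕ}

theorem walk_P_mono (h : Adm N r l) (hBN : B ≤ N) {φ ψ : ℕ → ℝ} {y : ℕ} (hy1 : A ≤ y)
    (hy2 : y < B) (h0 : φ y ≤ ψ y) (hr : y + 1 < B → φ (y + 1) ≤ ψ (y + 1))
    (hl : A < y → φ (y - 1) ≤ ψ (y - 1)) :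
    walk_P N r l A B φ y ≤ walk_P N r l A B ψ y := by
  have hN : (1 : ℝ) ≤ N := by
    have : 1 ≤ N := by omega
    exact_mod_cast this
  have hN2 : (0 : ℝ) < 2 * N := by linarith
  have key : ∀ χ : ℕ → ℝ, walk_P N r l A B χ y =
      ((2 * N - (if y + 1 < B then r (y + 1) else 0) - (if A < y then l y else 0)) * χ y +
        (if y + 1 < B then r (y + 1) * χ (y + 1) else 0) +
        (if A < y then l y * χ (y - 1) else 0)) / (2 * N) := by
    intro χ
    unfold walk_P
    rw [eq_div_iff hN2.ne', add_mul, div_mul_cancel₀ _ hN2.ne']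
    split_ifs <;> ring
  rw [key φ, key ψ]
  apply div_le_div_of_nonneg_right _ hN2.le
  have a1 : (if y + 1 < B then r (y + 1) else 0) ≤ 1 := by
    split_ifs with hh
    · exact (h (y + 1) (by omega) (by omega)).2.1
    · norm_num
  have a2 : (if A < y then l y else 0) ≤ 1 := by
    split_ifs with hh
    · exact (h y (by omega) (by omega)).2.2.2
    · norm_num
  have b1 : (if y + 1 < B then r (y + 1) * φ (y + 1) else 0) ≤
      (if y + 1 < B then r (y + 1) * ψ (y + 1) else 0) := by
    split_ifs with hh
    · exact mul_le_mul_of_nonneg_left (hr hh) (h (y + 1) (by omega) (by omega)).1.le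
    · exact le_rfl
  have b2 : (if A < y then l y * φ (y - 1) else 0) ≤ (if A < y then l y * ψ (y - 1) else 0) := by
    split_ifs with hh
    · exact mul_le_mul_of_nonneg_left (hl hh) (h y (by omega) (by omega)).2.2.1
    · exact le_rfl
  have b3 := mul_le_mul_of_nonneg_left h0 (show 0 ≤ 2 * (N : ℝ) -
    (if y + 1 < B then r (y + 1) else 0) - (if A < y then l y else 0) by linarith)
  linarith

theorem walk_P_const (c : ℝ) (y : ℕ) : walk_P N r l A B (fun _ => c) y = c := by
  unfold walk_P
  simp

theorem walk_it_le_one (h : Adm N r l) (hBN : B ≤ N) {φ : ℕ → ℝ}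
    (hφ : ∀ y, A ≤ y → y < B → φ y ≤ 1) (m : ℕ) :
    ∀ y, A ≤ y → y < B → ((walk_P N r l A B)^[m] φ) y ≤ 1 := by
  induction m with
  | zero => exact hφ
  | succ m ih =>
    intro y h1 h2
    rw [Function.iterate_succ_apply']
    have := walk_P_mono (A := A) (B := B) h hBN (φ := (walk_P N r l A B)^[m] φ)
      (ψ := fun _ => 1) h1 h2 (ih y h1 h2) (fun hh => ih _ (by omega) hh)
      (fun hh => ih _ (by omega) (by omega))
    rwa [walk_P_const] at this

/-- reversible weight -/
noncomputable def walk_w (r l : ℕ → ℝ) (A y : ℕ) : ℝ := ∏ b ∈ Finset.Ioc A y, r b / l b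

theorem walk_w_succ {y : ℕ} (hy : A ≤ y) (hl : l (y + 1) ≠ 0) :
    walk_w r l A (y + 1) * l (y + 1) = walk_w r l A y * r (y + 1) := by
  unfold walk_w
  have : Finset.Ioc A (y + 1) = insert (y + 1) (Finset.Ioc A y) := by
    ext z; simp only [Finset.mem_Ioc, Finset.mem_insert]; omega
  rw [this, Finset.prod_insert (by simp)]
  field_simp

theorem walk_w_pos (h : Adm N r l) (hl : Pos N l) {y : ℕ} (hy : y < N) :
    0 < walk_w r l A y := by
  unfold walk_w
  apply Finset.prod_pos
  intro b hb
  rw [Finset.mem_Ioc] at hb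
  exact div_pos (h b (by omega) (by omega)).1 (hl b (by omega) (by omega))

theorem walk_w_RR (h : Adm N r l) (hl : Pos N l) {z u : ℕ} (hz : A ≤ z) (hzu : z ≤ u)
    (hu : u < N) : RR r l z u * walk_w r l A u = walk_w r l A z := by
  unfold walk_w RR
  have hun : Finset.Ioc A u = Finset.Ioc A z ∪ Finset.Ioc z u := by
    ext b; simp only [Finset.mem_Ioc, Finset.mem_union]; omega
  have hdis : Disjoint (Finset.Ioc A z) (Finset.Ioc z u) := by
    rw [Finset.disjoint_left]
    intro b hb hb'
    rw [Finset.mem_Ioc] at hb hb'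
    omega
  rw [hun, Finset.prod_union hdis]
  have : (∏ b ∈ Finset.Ioc z u, l b / r b) * (∏ b ∈ Finset.Ioc z u, r b / l b) = 1 := by
    rw [← Finset.prod_mul_distrib]
    apply Finset.prod_eq_one
    intro b hb
    rw [Finset.mem_Ioc] at hb
    have h1 := (h b (by omega) (by omega)).1.ne'
    have h2 := (hl b (by omega) (by omega)).ne'
    field_simp
  calc _ = (∏ b ∈ Finset.Ioc A z, r b / l b) *
        ((∏ b ∈ Finset.Ioc z u, l b / r b) * (∏ b ∈ Finset.Ioc z u, r b / l b)) := by ring
    _ = _ := by rw [this, mul_one]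

/-- Dirichlet form identity -/
theorem walk_form (hl : Pos N l) (hAB : A < B) (hBN : B ≤ N) (g h : ℕ → ℝ) :
    ∑ y ∈ Finset.Ico A B, walk_w r l A y * (g y * walk_P N r l A B h y) =
      ∑ y ∈ Finset.Ico A B, walk_w r l A y * (g y * h y) -
      (∑ j ∈ Finset.range (B - A - 1), walk_w r l A (A + j) * r (A + j + 1) *
        (g (A + j + 1) - g (A + j)) * (h (A + j + 1) - h (A + j))) / (2 * N) := by
  obtain ⟨n, hn⟩ : ∃ n, B - A = n + 1 := ⟨B - A - 1, by omega⟩
  have hn' : B - A - 1 = n := by omega
  rw [hn', Finset.sum_Ico_eq_sum_range, Finset.sum_Ico_eq_sum_range, hn]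
  have e1 : ∀ j, walk_w r l A (A + j) * (g (A + j) * walk_P N r l A B h (A + j)) =
      walk_w r l A (A + j) * (g (A + j) * h (A + j)) +
      ((if A + j + 1 < B then walk_w r l A (A + j) * g (A + j) *
          (r (A + j + 1) * (h (A + j + 1) - h (A + j))) else 0) +
        (if A < A + j then walk_w r l A (A + j) * g (A + j) *
          (l (A + j) * (h (A + j - 1) - h (A + j))) else 0)) / (2 * N) := by
    intro j
    unfold walk_P
    split_ifs <;> ring
  simp_rw [e1]
  rw [Finset.sum_add_distrib, ← Finset.sum_div, Finset.sum_add_distrib]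
  have e2 : ∑ j ∈ Finset.range (n + 1), (if A + j + 1 < B then walk_w r l A (A + j) * g (A + j) *
      (r (A + j + 1) * (h (A + j + 1) - h (A + j))) else 0) =
      ∑ j ∈ Finset.range n, walk_w r l A (A + j) * g (A + j) *
        (r (A + j + 1) * (h (A + j + 1) - h (A + j))) := by
    rw [Finset.sum_range_succ, if_neg (by omega), add_zero]
    apply Finset.sum_congr rfl
    intro j hj
    rw [Finset.mem_range] at hj
    rw [if_pos (by omega)]
  have e3 : ∑ j ∈ Finset.range (n + 1), (if A < A + j then walk_w r l A (A + j) * g (A + j) *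
      (l (A + j) * (h (A + j - 1) - h (A + j))) else 0) =
      ∑ j ∈ Finset.range n, walk_w r l A (A + j) * g (A + j + 1) *
        (r (A + j + 1) * (h (A + j) - h (A + j + 1))) := by
    rw [Finset.sum_range_succ', if_neg (by omega), add_zero]
    apply Finset.sum_congr rfl
    intro j hj
    rw [Finset.mem_range] at hj
    rw [if_pos (by omega)]
    have e : A + (j + 1) = A + j + 1 := by ring
    have e' : A + j + 1 - 1 = A + j := by omega
    rw [e, e']
    have := walk_w_succ (r := r) (l := l) (A := A) (y := A + j) (by omega)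
      (hl _ (by omega) (by omega)).ne'
    calc _ = (walk_w r l A (A + j + 1) * l (A + j + 1)) * (g (A + j + 1) *
          (h (A + j) - h (A + j + 1))) := by ring
      _ = _ := by rw [this]; ring
  rw [e2, e3, ← Finset.sum_add_distrib]
  have e4 : ∑ j ∈ Finset.range n, (walk_w r l A (A + j) * g (A + j) *
        (r (A + j + 1) * (h (A + j + 1) - h (A + j))) +
      walk_w r l A (A + j) * g (A + j + 1) * (r (A + j + 1) * (h (A + j) - h (A + j + 1)))) =
      - ∑ j ∈ Finset.range n, walk_w r l A (A + j) * r (A + j + 1) *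
        (g (A + j + 1) - g (A + j)) * (h (A + j + 1) - h (A + j)) := by
    rw [← Finset.sum_neg_distrib]
    apply Finset.sum_congr rfl
    intro j _
    ring
  rw [e4]
  ring

theorem walk_adj (hl : Pos N l) (hAB : A < B) (hBN : B ≤ N) (g h : ℕ → ℝ) :
    ∑ y ∈ Finset.Ico A B, walk_w r l A y * (g y * walk_P N r l A B h y) =
      ∑ y ∈ Finset.Ico A B, walk_w r l A y * (walk_P N r l A B g y * h y) := by
  have h1 := walk_form (r := r) hl hAB hBN g h
  have h2 := walk_form (r := r) hl hAB hBN h g
  have e1 : ∑ y ∈ Finset.Ico A B, walk_w r l A y * (walk_P N r l A B g y * h y) =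
      ∑ y ∈ Finset.Ico A B, walk_w r l A y * (h y * walk_P N r l A B g y) := by
    apply Finset.sum_congr rfl; intro y _; ring
  have e2 : ∑ y ∈ Finset.Ico A B, walk_w r l A y * (h y * g y) =
      ∑ y ∈ Finset.Ico A B, walk_w r l A y * (g y * h y) := by
    apply Finset.sum_congr rfl; intro y _; ring
  have e3 : ∑ j ∈ Finset.range (B - A - 1), walk_w r l A (A + j) * r (A + j + 1) *
        (h (A + j + 1) - h (A + j)) * (g (A + j + 1) - g (A + j)) =
      ∑ j ∈ Finset.range (B - A - 1), walk_w r l A (A + j) * r (A + j + 1) *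
        (g (A + j + 1) - g (A + j)) * (h (A + j + 1) - h (A + j)) := by
    apply Finset.sum_congr rfl; intro y _; ring
  rw [e1, h1, h2, e2, e3]

theorem walk_adj_it (hl : Pos N l) (hAB : A < B) (hBN : B ≤ N) (h : ℕ → ℝ) (m : ℕ) :
    ∀ g : ℕ → ℝ, ∑ y ∈ Finset.Ico A B, walk_w r l A y *
        (g y * ((walk_P N r l A B)^[m] h) y) =
      ∑ y ∈ Finset.Ico A B, walk_w r l A y * (((walk_P N r l A B)^[m] g) y * h y) := by
  induction m with
  | zero => intro g; rfl
  | succ m ih =>
    intro g
    rw [Function.iterate_succ_apply', walk_adj hl hAB hBN, ih, Function.iterate_succ_apply]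

/-- reversibility bound at the target -/
theorem walk_target (hadm : Adm N r l) (hl : Pos N l) (hBN : B ≤ N) {u u' : ℕ}
    (hA : A ≤ u') (hu : u ≤ u') (hu' : u' < B) (m : ℕ) :
    ((walk_P N r l A B)^[m] (fun y => if y < u then 1 else 0)) u' ≤
      ∑ z ∈ Finset.Ico A u, RR r l z u' := by
  have hAB : A < B := by omega
  set φ : ℕ → ℝ := fun y => if y < u then 1 else 0 with hφ
  set g : ℕ → ℝ := fun y => if y = u' then 1 else 0 with hg
  have h1 := walk_adj_it (r := r) hl hAB hBN φ m g
  have h2 : ∑ y ∈ Finset.Ico A B, walk_w r l A y * (g y * ((walk_P N r l A B)^[m] φ) y) =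
      walk_w r l A u' * ((walk_P N r l A B)^[m] φ) u' := by
    rw [Finset.sum_eq_single u']
    · simp [hg]
    · intro y _ hy
      simp [hg, hy]
    · intro hh
      exact absurd (Finset.mem_Ico.2 ⟨hA, hu'⟩) hh
  have h3 : ∑ y ∈ Finset.Ico A B, walk_w r l A y * (((walk_P N r l A B)^[m] g) y * φ y) ≤
      ∑ y ∈ Finset.Ico A u, walk_w r l A y := by
    have h4 : ∑ y ∈ Finset.Ico A B, walk_w r l A y * (((walk_P N r l A B)^[m] g) y * φ y) ≤
        ∑ y ∈ Finset.Ico A B, (if y < u then walk_w r l A y else 0) := by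
      apply Finset.sum_le_sum
      intro y hy
      rw [Finset.mem_Ico] at hy
      by_cases hyu : y < u
      · rw [if_pos hyu]
        have hle := walk_it_le_one (A := A) (B := B) hadm hBN (φ := g)
          (by intro z _ _; simp only [hg]; split_ifs <;> norm_num) m y hy.1 hy.2
        have hw := walk_w_pos (A := A) hadm hl (y := y) (by omega)
        simp only [hφ, if_pos hyu, mul_one]
        calc walk_w r l A y * ((walk_P N r l A B)^[m] g) y ≤ walk_w r l A y * 1 :=
              mul_le_mul_of_nonneg_left hle hw.le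
          _ = _ := mul_one _
      · rw [if_neg hyu]
        simp only [hφ, if_neg hyu, mul_zero]
        exact le_rfl
    refine h4.trans (le_of_eq ?_)
    rw [← Finset.sum_filter]
    apply Finset.sum_congr _ (fun _ _ => rfl)
    ext y
    simp only [Finset.mem_filter, Finset.mem_Ico]
    omega
  rw [h2] at h1
  have hw := walk_w_pos (A := A) hadm hl (y := u') (by omega)
  have h5 : walk_w r l A u' * ((walk_P N r l A B)^[m] φ) u' ≤
      walk_w r l A u' * ∑ z ∈ Finset.Ico A u, RR r l z u' := by
    rw [h1]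
    refine h3.trans (le_of_eq ?_)
    rw [Finset.mul_sum]
    apply Finset.sum_congr rfl
    intro z hz
    rw [Finset.mem_Ico] at hz
    rw [← walk_w_RR hadm hl hz.1 (by omega) (by omega : u' < N)]
    ring
  exact le_of_mul_le_mul_left h5 hw

end onep

theorem walk_F_succ (v : ℕ → ℝ) {y u' : ℕ} (h : y < u') :
    ∏ z ∈ Finset.Ico y u', (1 + v z) = (1 + v y) * ∏ z ∈ Finset.Ico (y + 1) u', (1 + v z) :=
  Finset.prod_eq_prod_Ico_succ_bot h _

theorem walk_main {N : ℕ} {r l v : ℕ → ℝ} {lam : ℝ} {A B u u' : ℕ} (hadm : Adm N r l)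
    (hl : Pos N l) (hu : u ≤ u') (hu' : u' < B) (hBN : B ≤ N) (hAu : A ≤ u')
    (hv : ∀ y, 0 ≤ v y) (hlam : 0 ≤ lam) (hlam1 : lam ≤ 1)
    (hdrift : ∀ y, A ≤ y → y < u' →
      (1 + v y) * (lam + (if y = A then 0 else l y * v (y - 1))) ≤ r (y + 1) * v y) (m : ℕ) :
    ∀ y, A ≤ y → y ≤ u' →
      ((walk_P N r l A B)^[m] (fun y => if y < u then 1 else 0)) y ≤
      (∏ z ∈ Finset.Ico y u', (1 + v z)) * (1 - lam / (2 * N)) ^ m +
        ∑ z ∈ Finset.Ico A u, RR r l z u' := by
  have hN : (1 : ℝ) ≤ N := by
    have : 1 ≤ N := by omega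
    exact_mod_cast this
  have hN2 : (0 : ℝ) < 2 * N := by linarith
  have hq : 0 ≤ 1 - lam / (2 * N) := by
    have : lam / (2 * N) ≤ 1 := by
      rw [div_le_one hN2]; linarith
    linarith
  have hE : 0 ≤ ∑ z ∈ Finset.Ico A u, RR r l z u' := by
    apply Finset.sum_nonneg
    intro z hz
    rw [Finset.mem_Ico] at hz
    unfold RR
    apply Finset.prod_nonneg
    intro b hb
    rw [Finset.mem_Ioc] at hb
    exact div_nonneg (hl b (by omega) (by omega)).le (hadm b (by omega) (by omega)).1.le
  have hF1 : ∀ y, 1 ≤ ∏ z ∈ Finset.Ico y u', (1 + v z) := by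
    intro y
    have : ∏ z ∈ Finset.Ico y u', (1 : ℝ) ≤ ∏ z ∈ Finset.Ico y u', (1 + v z) := by
      apply Finset.prod_le_prod
      · intro _ _; norm_num
      · intro z _; linarith [hv z]
    simpa using this
  induction m with
  | zero =>
    intro y h1 h2
    simp only [Function.iterate_zero, id_eq, pow_zero, mul_one]
    have := hF1 y
    split_ifs <;> linarith
  | succ m ih =>
    intro y h1 h2
    rcases Nat.lt_or_ge y u' with hy | hy
    · rw [Function.iterate_succ_apply']
      set c : ℝ := (1 - lam / (2 * N)) ^ m with hc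
      set E : ℝ := ∑ z ∈ Finset.Ico A u, RR r l z u' with hEdef
      have hc0 : 0 ≤ c := pow_nonneg hq m
      have hstep := walk_P_mono (A := A) (B := B) hadm hBN
        (φ := (walk_P N r l A B)^[m] (fun y => if y < u then 1 else 0))
        (ψ := fun y => (∏ z ∈ Finset.Ico y u', (1 + v z)) * c + E) h1 (by omega)
        (ih y h1 h2) (fun hh => ih _ (by omega) (by omega)) (fun hh => ih _ (by omega) (by omega))
      refine hstep.trans ?_
      unfold walk_P
      beta_reduce
      rw [if_pos (by omega : y + 1 < B)]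
      set G : ℝ := ∏ z ∈ Finset.Ico (y + 1) u', (1 + v z) with hG
      have eF : ∏ z ∈ Finset.Ico y u', (1 + v z) = (1 + v y) * G := walk_F_succ v hy
      have hG1 : 1 ≤ G := hF1 (y + 1)
      have hd := hdrift y h1 hy
      have hvy := hv y
      have hp1 : 0 < 1 + v y := by linarith
      rw [eF]
      by_cases hA : A < y
      · rw [if_pos hA]
        have e' : y - 1 + 1 = y := by omega
        have eF' : ∏ z ∈ Finset.Ico (y - 1) u', (1 + v z) = (1 + v (y - 1)) * ((1 + v y) * G) := by
          rw [walk_F_succ v (by omega : y - 1 < u'), e', eF]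
        rw [eF']
        rw [if_neg (by omega : ¬ y = A)] at hd
        have e5 : (1 + v y) * G * c + E +
            (r (y + 1) * (G * c + E - ((1 + v y) * G * c + E)) +
            l y * ((1 + v (y - 1)) * ((1 + v y) * G) * c + E - ((1 + v y) * G * c + E))) /
              (2 * N) = (1 + v y) * G * c + E - G * c *
              (r (y + 1) * v y - (1 + v y) * (l y * v (y - 1))) / (2 * N) := by
          field_simp
          ring
        rw [e5]
        have e6 : (1 + v y) * G * (1 - lam / (2 * N)) ^ (m + 1) + E =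
            (1 + v y) * G * c + E - G * c * ((1 + v y) * lam) / (2 * N) := by
          rw [pow_succ, ← hc]
          field_simp
          ring
        rw [e6]
        have e7 : G * c * ((1 + v y) * lam) / (2 * N) ≤
            G * c * (r (y + 1) * v y - (1 + v y) * (l y * v (y - 1))) / (2 * N) := by
          apply div_le_div_of_nonneg_right _ hN2.le
          apply mul_le_mul_of_nonneg_left _ (by positivity)
          linarith
        linarith
      · rw [if_neg hA]
        rw [if_pos (by omega : y = A)] at hd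
        have e5 : (1 + v y) * G * c + E +
            (r (y + 1) * (G * c + E - ((1 + v y) * G * c + E)) + 0) / (2 * N) =
            (1 + v y) * G * c + E - G * c * (r (y + 1) * v y) / (2 * N) := by
          field_simp
          ring
        rw [e5]
        have e6 : (1 + v y) * G * (1 - lam / (2 * N)) ^ (m + 1) + E =
            (1 + v y) * G * c + E - G * c * ((1 + v y) * lam) / (2 * N) := by
          rw [pow_succ, ← hc]
          field_simp
          ring
        rw [e6]
        have e7 : G * c * ((1 + v y) * lam) / (2 * N) ≤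
            G * c * (r (y + 1) * v y) / (2 * N) := by
          apply div_le_div_of_nonneg_right _ hN2.le
          apply mul_le_mul_of_nonneg_left _ (by positivity)
          linarith
        linarith
    · have hyu : y = u' := by omega
      subst hyu
      have := walk_target (A := A) (B := B) hadm hl hBN hAu hu hu' (m + 1)
      refine this.trans ?_
      have h7 : 0 ≤ (∏ z ∈ Finset.Ico y y, (1 + v z)) * (1 - lam / (2 * N)) ^ (m + 1) :=
        mul_nonneg (by linarith [hF1 y]) (pow_nonneg hq _)
      linarith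

theorem st_WALK : ST_WALK := by
  intro N r l v lam S A B u u' c m η hadm hl hAc hcu huu hu'B hBN hAS hBS hS hcnt hocc hv hlam
    hdrift
  have hat : walk_At A B c η := walk_at_of hAc (by omega) hcnt hocc
  have hf : ∀ (z : ℕ) (ξ : Cfg N), walk_At A B z ξ →
      ind {ξ : Cfg N | ∃ i, A ≤ i ∧ i < u ∧ occ ξ i = true} ξ =
        (fun y => if y < u then (1 : ℝ) else 0) z := by
    intro z ξ hz
    by_cases hzu : z < u
    · rw [ind_of_mem]
      · simp [hzu]
      · exact ⟨z, hz.1, hzu, (hz.2.2 z hz.1 hz.2.1).2 rfl⟩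
    · rw [ind_of_not_mem]
      · simp [hzu]
      · rintro ⟨i, h1, h2, h3⟩
        have := (hz.2.2 i h1 (by omega)).1 h3
        omega
  have hev := walk_ev (r := r) (l := l) hAS hBS hS hBN hf m c η hat
  unfold pr
  rw [hev]
  have hN : (1 : ℝ) ≤ N := by
    have : 1 ≤ N := by omega
    exact_mod_cast this
  have hN2 : (0 : ℝ) < 2 * N := by linarith
  rcases Nat.lt_or_ge c u' with hc | hc
  · have hlam1 : lam ≤ 1 := by
      have hd := hdrift c hAc hc
      have hvc := hv c
      have h0 : 0 ≤ (if c = A then 0 else l c * v (c - 1)) := by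
        split_ifs with hh
        · exact le_rfl
        · exact mul_nonneg (hadm c (by omega) (by omega)).2.2.1 (hv _)
      have hr := (hadm (c + 1) (by omega) (by omega)).2.1
      have h1 : (1 + v c) * lam ≤ 1 + v c := by
        calc (1 + v c) * lam ≤ (1 + v c) * (lam + (if c = A then 0 else l c * v (c - 1))) :=
              mul_le_mul_of_nonneg_left (by linarith) (by linarith)
          _ ≤ r (c + 1) * v c := hd
          _ ≤ 1 * v c := mul_le_mul_of_nonneg_right hr hvc
          _ ≤ 1 + v c := by linarith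
      have h2 : (1 + v c) * lam ≤ (1 + v c) * 1 := by linarith
      exact le_of_mul_le_mul_left h2 (by linarith)
    have hmain := walk_main (A := A) (B := B) hadm hl huu hu'B hBN (by omega) hv hlam hlam1
      hdrift m c hAc hcu
    refine hmain.trans ?_
    have h3 : (∏ z ∈ Finset.Ico c u', (1 + v z)) ≤ Real.exp (∑ y ∈ Finset.Ico c u', v y) := by
      rw [Real.exp_sum]
      apply Finset.prod_le_prod
      · intro z _; linarith [hv z]
      · intro z _; linarith [Real.add_one_le_exp (v z)]
    have h4 : (1 - lam / (2 * N)) ^ m ≤ Real.exp (-(lam * m / (2 * N))) := by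
      have h5 : 1 - lam / (2 * N) ≤ Real.exp (-(lam / (2 * N))) := by
        linarith [Real.add_one_le_exp (-(lam / (2 * (N : ℝ))))]
      have h6 : 0 ≤ 1 - lam / (2 * N) := by
        have : lam / (2 * N) ≤ 1 := by
          rw [div_le_one hN2]; linarith
        linarith
      calc (1 - lam / (2 * N)) ^ m ≤ (Real.exp (-(lam / (2 * N)))) ^ m :=
            pow_le_pow_left₀ h6 h5 m
        _ = Real.exp (-(lam * m / (2 * N))) := by
            rw [← Real.exp_nat_mul]; congr 1; ring
    have h8 : (∏ z ∈ Finset.Ico c u', (1 + v z)) * (1 - lam / (2 * N)) ^ m ≤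
        Real.exp (∑ y ∈ Finset.Ico c u', v y - lam * m / (2 * N)) := by
      have e9 : ∑ y ∈ Finset.Ico c u', v y - lam * m / (2 * N) =
          ∑ y ∈ Finset.Ico c u', v y + (-(lam * m / (2 * N))) := by ring
      rw [e9, Real.exp_add]
      apply mul_le_mul h3 h4
      · apply pow_nonneg
        have : lam / (2 * N) ≤ 1 := by
          rw [div_le_one hN2]; linarith
        linarith
      · exact (Real.exp_pos _).le
    linarith
  · have hcc : c = u' := by omega
    subst hcc
    have := walk_target (A := A) (B := B) hadm hl hBN hAc huu hu'B m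
    refine this.trans ?_
    linarith [Real.exp_pos (∑ y ∈ Finset.Ico c c, v y - lam * m / (2 * N))]

end Pool.Agent.Helper98.EX
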